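import Pool.Agent.Q66.RX.Stm

/-! Project RX (MP_c93b6d_al), job TR0. -/

set_option autoImplicit false

namespace Pool.Agent.Q194.RX

open Topology Filter Set Pool.Agent.Q66.RX

lemma continuous_rr : Continuous rr := by
  unfold rr
  fun_prop

lemma pos_mem : {z : Circle | 0 < rr z} ∈ 𝓝 (1 : Circle) := by
  apply (isOpen_lt continuous_const continuous_rr).mem_nhds
  simp [rr]

lemma maps_mem {X : Type} [CommGroup X] [TopologicalSpace X] [IsTopologicalGroup X] {K : Set X}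
    (hK : IsCompact K) {V : Set Circle} (hV : IsOpen V) (h1 : (1 : Circle) ∈ V) :
    {β : PontryaginDual X | ∀ v ∈ K, β v ∈ V} ∈ 𝓝 (1 : PontryaginDual X) := by
  have ho : IsOpen {β : X →ₜ* Circle | MapsTo β.toContinuousMap K V} :=
    (ContinuousMap.isOpen_setOf_mapsTo hK hV).preimage
      (ContinuousMonoidHom.isInducing_toContinuousMap X Circle).continuous
  exact ho.mem_nhds (fun v _ => h1)

theorem t_TR0 (hE : S_EQ) : S_TR0 := by
  intro I X G _ _ _ _ _ _ _ F hF h2 g y N hN hy hψ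
  rw [hF y]
  intro U hU
  obtain ⟨L, hL, hLU⟩ := h2 U hU
  obtain ⟨K, hK, hK1⟩ := exists_compact_mem_nhds (1 : X)
  have hN' : {β : PontryaginDual X | β ∈ N ∧ ∀ v ∈ K, 0 ≤ rr (β v)} ∈
      𝓝 (1 : PontryaginDual X) := by
    filter_upwards [hN, maps_mem hK (isOpen_lt continuous_const continuous_rr)
      (mem_of_mem_nhds pos_mem)] with β h1 h3
    exact ⟨h1, fun v hv => le_of_lt (h3 v hv)⟩
  obtain ⟨V', hV', hVV⟩ := exists_nhds_one_split pos_mem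
  obtain ⟨W', hW', hWV⟩ := hE X K hK1 V' hV'
  obtain ⟨t, ht⟩ := compact_covered_by_mul_left_translates hL
    ⟨1, mem_interior_iff_mem_nhds.2 hN'⟩
  have h1 : ∀ᶠ i in cofinite, F.c g i ∈ W' := ((hF _).1 ⟨g, rfl⟩) hW'
  have h3 : ∀ᶠ i in cofinite, ∀ ψ ∈ t, (ψ⁻¹) (y i) ∈ V' :=
    (Filter.eventually_all_finset t).2 (fun ψ _ => (hψ ψ⁻¹) hV')
  change ∀ᶠ i in cofinite, y i ∈ U
  filter_upwards [h1, h3] with i hi1 hi2
  apply hLU
  intro χ hχ
  obtain ⟨ψ, hψt, hψ'⟩ := mem_iUnion₂.1 (ht hχ)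
  have e : χ (y i) = (ψ⁻¹) (y i) * (ψ * χ) (y i) := by
    change χ (y i) = (ψ (y i))⁻¹ * (ψ (y i) * χ (y i))
    rw [inv_mul_cancel_left]
  rw [e]
  have h4 : (ψ * χ) (y i) ∈ V' := by
    rw [hy _ hψ'.1]
    exact hWV ((ψ * χ : X →ₜ* Circle) : X →* Circle) (fun v hv => hψ'.2 v hv) _ hi1
  exact (hVV _ (hi2 ψ hψt) _ h4).le

end Pool.Agent.Q194.RX
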